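import Pool.Agent.Helper66.R7.Sheet

/-! # Row INJT (MP_798d7d_nt, rank seven) -/

set_option autoImplicit false

namespace Pool.Helper66.R7

open Pool.Helper17.RS (MM Cong Box yy)

theorem injt_mm : (13 : ℤ) ∣ MM := by
  unfold MM
  have h : (13 : ℕ) ∣ Nat.factorial 1000 := (Nat.Prime.dvd_factorial (by norm_num)).2 (by norm_num)
  exact_mod_cast h

theorem injt_cong {y : Fin 3 → ℤ} (hy : Cong tb y) (i : Fin 3) :
    ((y i : ℤ) : ZMod 13) = ((tb i : ℤ) : ZMod 13) := by
  rw [← sub_eq_zero, ← Int.cast_sub]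
  exact (ZMod.intCast_zmod_eq_zero_iff_dvd _ 13).2 (by exact_mod_cast injt_mm.trans (hy i))

/-- row INJT -/
theorem st_INJT : ST_INJT := by
  intro y y' hy hy' hp hp' h1 h2 h3
  have e0 : ((y 0 : ℤ) : ZMod 13) = 4 := by simpa [tb] using injt_cong hy 0
  have e1 : ((y 1 : ℤ) : ZMod 13) = 3 := by simpa [tb] using injt_cong hy 1
  have e0' : ((y' 0 : ℤ) : ZMod 13) = 4 := by simpa [tb] using injt_cong hy' 0
  have e1' : ((y' 1 : ℤ) : ZMod 13) = 3 := by simpa [tb] using injt_cong hy' 1
  have e2' : ((y' 2 : ℤ) : ZMod 13) = 1 := by simpa [tb] using injt_cong hy' 2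
  set U := y' 0 ^ 2 with hU
  set V := y' 1 ^ 2 with hV
  set W := y' 2 ^ 2 with hW
  have h2' : 57717 * (y 0 ^ 2 - U) = 2276 * (y 1 ^ 2 - V) := by
    unfold M2 at h2
    linear_combination h2
  have hcop : IsCoprime (2276 : ℤ) 57717 := by
    rw [Int.isCoprime_iff_gcd_eq_one]; norm_num
  obtain ⟨k, hk⟩ : (2276 : ℤ) ∣ y 0 ^ 2 - U :=
    hcop.dvd_of_dvd_mul_left ⟨y 1 ^ 2 - V, h2'⟩
  have hkV : y 1 ^ 2 - V = 57717 * k := by
    rw [hk] at h2'
    linarith
  have hkW : y 2 ^ 2 - W = 130781 * k := by
    unfold M1 at h1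
    have : 26961 * (y 2 ^ 2 - W) = 26961 * (130781 * k) := by
      linear_combination h1 + 1594824 * hk - 1799 * hkV
    exact mul_left_cancel₀ (by norm_num) this
  have h13p : Prime (13 : ℤ) := by
    have h13 : Nat.Prime 13 := by norm_num
    exact_mod_cast Nat.prime_iff_prime_int.1 h13
  have h13k : (13 : ℤ) ∣ k := by
    have : (13 : ℤ) ∣ 57717 * k := by
      rw [← hkV]
      have : (((y 1 ^ 2 - V : ℤ)) : ZMod 13) = 0 := by
        rw [hV]
        push_cast
        rw [e1, e1']
        norm_num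
      exact_mod_cast (ZMod.intCast_zmod_eq_zero_iff_dvd _ 13).1 this
    rcases h13p.dvd_or_dvd this with h | h
    · norm_num at h
    · exact h
  have hk0 : k = 0 := by
    by_contra hne
    have hc := chk_inj U V W k
    have ea : U + 2276 * k = y 0 ^ 2 := by linarith
    have eb : V + 57717 * k = y 1 ^ 2 := by linarith
    have ec : W + 130781 * k = y 2 ^ 2 := by linarith
    rw [ea, eb, ec, h3, sub_self] at hc
    have hc2 := (mul_eq_zero.1 hc.symm).resolve_left hne
    obtain ⟨l, hl⟩ := h13k
    have hd : (13 : ℤ) ∣ (22617638913668198400 * U ^ 2 - 939501924106217472 * U * V -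
        77780115721211904 * U * W + 10586334781845900 * V ^ 2 + 481574444978088 * V * W +
        130695491133900 * W ^ 2) := by
      refine ⟨-(l * (19279049233621635634176 * U -
        426651311284736009472 * V - 57523768544356418304 * W) +
        13 * l ^ 2 * 3910355449434085900824576), ?_⟩
      rw [hl] at hc2
      linear_combination hc2
    have hz := (ZMod.intCast_zmod_eq_zero_iff_dvd (22617638913668198400 * U ^ 2 -
        939501924106217472 * U * V -
        77780115721211904 * U * W + 10586334781845900 * V ^ 2 + 481574444978088 * V * W +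
        130695491133900 * W ^ 2) 13).2 (by exact_mod_cast hd)
    have key : (((22617638913668198400 * U ^ 2 -
        939501924106217472 * U * V -
        77780115721211904 * U * W + 10586334781845900 * V ^ 2 + 481574444978088 * V * W +
        130695491133900 * W ^ 2 : ℤ)) : ZMod 13) =
        (((22617638913668198400 * 16 ^ 2 -
        939501924106217472 * 16 * 9 -
        77780115721211904 * 16 * 1 + 10586334781845900 * 9 ^ 2 + 481574444978088 * 9 * 1 +
        130695491133900 * 1 ^ 2 : ℤ)) : ZMod 13) := by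
      rw [hU, hV, hW]
      push_cast
      rw [e0', e1', e2']
      ring
    rw [key] at hz
    have h14 := (ZMod.intCast_zmod_eq_zero_iff_dvd _ 13).1 hz
    revert h14
    norm_num
  subst hk0
  ext i
  fin_cases i
  · have : y 0 ^ 2 = y' 0 ^ 2 := by linarith
    exact (pow_left_inj₀ (hp 0).le (hp' 0).le (by norm_num)).1 this
  · have : y 1 ^ 2 = y' 1 ^ 2 := by linarith
    exact (pow_left_inj₀ (hp 1).le (hp' 1).le (by norm_num)).1 this
  · have : y 2 ^ 2 = y' 2 ^ 2 := by linarith
    exact (pow_left_inj₀ (hp 2).le (hp' 2).le (by norm_num)).1 this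

end Pool.Helper66.R7
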